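import Pool.Agent.X160.Af.Geo

/-!
# Antichains of the unit cube attaining the maximal `(n - 1)`-dimensional Hausdorff measure

Full (positive) answer to Q1 of MP_efb25f_co.  For every `n ≥ 2` there is a Borel `n`-cube
antichain `S` whose `(n - 1)`-dimensional Hausdorff measure (Euclidean metric, no normalising
constant) is exactly `n` times the one of a facet of the cube.

Idea of the proof. Let `A` be the set of the real numbers `x` such that for all large `m` the number
`b ^ m * x`, `b = 2 n + 2`, lies up to an integer in `[1 / (b - 1), 2 / (b - 1)]`; the sum of `n`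
elements of `A` is never zero. A probability measure without atoms on `ℝ` which is carried by
`A` and charges all intervals has a strictly increasing continuous distribution function
`F : ℝ → [0, 1]` such that `F(A)` has measure one. The set
`S₀ = {(F(y₁), …, F(yₙ)) : y₁ + ⋯ + yₙ = 0}` is an antichain. Its parts
`T_j = {(F(y₁), …, F(yₙ)) : y₁ + ⋯ + yₙ = 0, y_i ∈ A for i ≠ j}` are disjoint and `T_j` projects
onto a subset of full measure of the facet `x_j = 0`. So `S₀` has at least the asserted
measure, and it has finite measure; a Borel part of it has exactly this measure.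
-/

set_option autoImplicit false
open MeasureTheory Pool.Agent.X160.Af

namespace Pool.Agent.Results.MP_efb25f_co.MaximalAntichains

/-- For every `n ≥ 2` there is an `n`-cube antichain `S` (a Borel set) whose `(n - 1)`-dimensional
Hausdorff measure is exactly `n` times the measure of each facet (which is positive and finite). -/
theorem result (n : ℕ) (hn : 2 ≤ n) :
    ∃ S : Set (E n), IsCubeAntichain S ∧ MeasurableSet S ∧
      ∀ j : Fin n, μH[(n : ℝ) - 1] S = n * μH[(n : ℝ) - 1] (facet j) ∧
        0 < μH[(n : ℝ) - 1] (facet j) ∧ μH[(n : ℝ) - 1] (facet j) < ⊤ := by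
  obtain ⟨m, rfl⟩ : ∃ m, n = m + 1 := ⟨n - 1, by omega⟩
  obtain ⟨S, h1, h2, h3⟩ := exists_antichain m (by omega)
  have hm : ((m + 1 : ℕ) : ℝ) - 1 = m := by push_cast; ring
  rw [hm]
  exact ⟨S, h1, h2, fun j => by
    rw [measure_facet]; exact ⟨h3, measure_cube_pos m, measure_cube_lt_top m⟩⟩

end Pool.Agent.Results.MP_efb25f_co.MaximalAntichains
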